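import Mathlib
import Pool.Agent.H.MP_9a1833_al.Canon

open IsLocalRing TensorProduct CategoryTheory CategoryTheory.Abelian Filter

universe u

namespace Pool.Agent.Results.MP_9a1833_al.Yes

/-- `ω` is a canonical module of the `d`-dimensional local ring `R`: it is finitely generated and
`Ext^i(k, ω)` has length `1` for `i = d` and vanishes for `i ≠ d` (Bruns-Herzog 3.3.1). -/
def IsCanonical (R : Type u) [CommRing R] [IsLocalRing R] (d : ℕ) (ω : Type u) [AddCommGroup ω]
    [Module R ω] : Prop :=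
  Module.Finite R ω ∧ ∀ i : ℕ,
    Module.length R (Ext (ModuleCat.of R (ResidueField R)) (ModuleCat.of R ω) i) =
      if i = d then 1 else 0

/-- `e` is the Hilbert-Samuel multiplicity of the one-dimensional local ring `R`: the length of
`R / m ^ n` equals `e * n + c` for all large `n`. -/
def IsMultOne (R : Type u) [CommRing R] [IsLocalRing R] (e : ℕ) : Prop :=
  ∃ c : ℤ, ∀ᶠ n : ℕ in atTop,
    ((Module.length R (R ⧸ maximalIdeal R ^ n)).toNat : ℤ) = e * n + c

/-- torsion-free modules -/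
def TorsionFree (R : Type u) [CommRing R] (N : Type u) [AddCommGroup N] [Module R N] : Prop :=
  ∀ (r : R) (x : N), r ≠ 0 → x ≠ 0 → r • x ≠ 0

open Pool.Agent.H.MP_9a1833_al in
theorem result (R : Type u) [CommRing R] [IsLocalRing R] [IsNoetherianRing R] [IsDomain R]
    (hdim : ringKrullDim R = 1)
    (ω : Type u) [AddCommGroup ω] [Module R ω] (hω : IsCanonical R 1 ω)
    (hmin : IsMultOne R (Module.finrank (ResidueField R) (CotangentSpace R)))
    (I : Ideal R) (hI : I ≠ ⊥) (htf : TorsionFree R (I ⊗[R] (I →ₗ[R] ω))) :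
    Nonempty (I ≃ₗ[R] R) ∨ Nonempty (I ≃ₗ[R] ω) := by
  obtain ⟨hfg, hE⟩ := hω
  obtain ⟨c, hc⟩ := hmin
  obtain ⟨N, hN⟩ := eventually_atTop.1 hc
  have hm := max_ne_bot hdim
  refine final (by simpa using hE 0) (by simpa using hE 1) (by simpa using hE 2) N ?_ I hI
    (fun r t hr ht => by by_contra h; exact htf r t hr h ht) hm (ell_fin hdim)
  intro n hn
  have h1 := hN n hn
  have h2 := hN (n + 1) (by omega)
  obtain ⟨a, ha⟩ := ENat.ne_top_iff_exists.1 (ell_fin hdim _ (pow_ne_zero n hm))
  obtain ⟨b, hb⟩ := ENat.ne_top_iff_exists.1 (ell_fin hdim _ (pow_ne_zero (n + 1) hm))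
  unfold ell at ha hb ⊢
  rw [← ha] at h1 ⊢
  rw [← hb] at h2 ⊢
  simp only [ENat.toNat_natCast] at h1 h2
  have h3 : b = a + Module.finrank (ResidueField R) (CotangentSpace R) := by
    push_cast at h2
    zify
    linarith
  exact_mod_cast h3

end Pool.Agent.Results.MP_9a1833_al.Yes
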